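import Mathlib

/-!
# Rich lines in `ℂ ^ d`: too many lines on a quadric

For every `d ≥ 4` and every constant `C` there are a finite set `V` of points of `ℂ ^ d` (with
integer coordinates) and `r ≥ 2` such that more than
`C (n ^ 2 / r ^ (d + 1) + ∑_{2 ≤ l ≤ d - 1} n s_l / r ^ (l + 1) + n / r)` lines contain at least
`r` points of `V`. The points are the points `(x, y, z, x z - y ^ 2, 0, ..., 0)`,
`1 ≤ x, y, z ≤ N`; the lines have the directions `(s ^ 2, s, 1, *)`, `s ≤ S`.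
-/

set_option autoImplicit false

namespace Pool.Agent.Results.MP_0eaff0_co.QuadricPoints

open Finset Module

/-- the lines (affine subspaces of dimension one) of `ℂ ^ d` that contain at least `r` points
of `V` -/
def richLines {d : ℕ} (V : Finset (Fin d → ℂ)) (r : ℕ) : Set (AffineSubspace ℂ (Fin d → ℂ)) :=
  {L | (L : Set (Fin d → ℂ)).Nonempty ∧ finrank ℂ L.direction = 1 ∧
    r ≤ {p | p ∈ V ∧ p ∈ L}.ncard}

/-- `s_l(V)`: the largest number of points of `V` on a complex affine subspace of dimension `l` -/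
noncomputable def maxOnFlat {d : ℕ} (V : Finset (Fin d → ℂ)) (l : ℕ) : ℕ :=
  sSup {m | ∃ F : AffineSubspace ℂ (Fin d → ℂ), (F : Set (Fin d → ℂ)).Nonempty ∧
    finrank ℂ F.direction = l ∧ m = {p | p ∈ V ∧ p ∈ F}.ncard}

/-! ### Counting points of the grid on quadrics -/

theorem quad_false {A B D : ℂ} (hA : A ≠ 0) {u v w : ℕ} (huv : u ≠ v) (huw : u ≠ w) (hvw : v ≠ w)
    (hu : A * (u:ℂ) ^ 2 + B * u + D = 0) (hv : A * (v:ℂ) ^ 2 + B * v + D = 0)
    (hw : A * (w:ℂ) ^ 2 + B * w + D = 0) : False := by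
  have huv' : (u:ℂ) - v ≠ 0 := sub_ne_zero.mpr (by exact_mod_cast huv)
  have huw' : (u:ℂ) - w ≠ 0 := sub_ne_zero.mpr (by exact_mod_cast huw)
  have hvw' : (v:ℂ) - w ≠ 0 := sub_ne_zero.mpr (by exact_mod_cast hvw)
  have h1 : A * ((u:ℂ) + v) + B = 0 := by
    have : ((u:ℂ) - v) * (A * ((u:ℂ) + v) + B) = 0 := by linear_combination hu - hv
    exact (mul_eq_zero.mp this).resolve_left huv'
  have h2 : A * ((u:ℂ) + w) + B = 0 := by
    have : ((u:ℂ) - w) * (A * ((u:ℂ) + w) + B) = 0 := by linear_combination hu - hw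
    exact (mul_eq_zero.mp this).resolve_left huw'
  have h3 : A * ((v:ℂ) - w) = 0 := by linear_combination h1 - h2
  rcases mul_eq_zero.mp h3 with h | h
  · exact hA h
  · exact hvw' h

theorem card_le_of_fibers {α β : Type*} [DecidableEq β] (Z : Finset α) (g : α → β) (T : Finset β)
    (k : ℕ) (h1 : ∀ p ∈ Z, g p ∈ T) (h2 : ∀ b ∈ T, (Z.filter fun p => g p = b).card ≤ k) :
    Z.card ≤ k * T.card := by
  classical
  have him : Z.image g ⊆ T := by
    intro b hb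
    obtain ⟨p, hp, rfl⟩ := mem_image.mp hb
    exact h1 p hp
  calc Z.card ≤ k * (Z.image g).card :=
        card_le_mul_card_image Z k (fun b hb => h2 b (him hb))
    _ ≤ k * T.card := Nat.mul_le_mul_left k (card_le_card him)

/-- the grid -/
def grid (N : ℕ) : Finset (ℕ × ℕ × ℕ) := Icc 1 N ×ˢ Icc 1 N ×ˢ Icc 1 N

/-- fibres with at most one element, from a uniqueness statement -/
theorem fiber_one {β : Type*} [DecidableEq β] (Z : Finset (ℕ × ℕ × ℕ)) (g : ℕ × ℕ × ℕ → β)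
    (h : ∀ p ∈ Z, ∀ q ∈ Z, g p = g q → p = q) (b : β) :
    (Z.filter fun p => g p = b).card ≤ 1 := by
  rw [card_le_one]
  intro p hp q hq
  rw [mem_filter] at hp hq
  exact h p hp.1 q hq.1 (hp.2.trans hq.2.symm)

theorem card_two (N : ℕ) : (Icc 1 N ×ˢ Icc 1 N : Finset (ℕ × ℕ)).card = N ^ 2 := by
  rw [card_product, Nat.card_Icc]; simp; ring

theorem card_grid (N : ℕ) : (grid N).card = N ^ 3 := by
  rw [grid, card_product, card_product, Nat.card_Icc]; simp; ring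

/-- A quadric `a x + b y + c z + e (x z - y ^ 2) = f` contains at most `2 N ^ 2` points. -/
theorem count_three (N : ℕ) (a b c e f : ℂ) (h0 : ¬ (a = 0 ∧ b = 0 ∧ c = 0 ∧ e = 0))
    (Z : Finset (ℕ × ℕ × ℕ)) (hZ : ∀ p ∈ Z, p ∈ grid N ∧
      a * p.1 + b * p.2.1 + c * p.2.2 + e * (p.1 * p.2.2 - (p.2.1 : ℂ) ^ 2) = f) :
    Z.card ≤ 2 * N ^ 2 := by
  classical
  have hmem : ∀ p ∈ Z, p.1 ∈ Icc 1 N ∧ p.2.1 ∈ Icc 1 N ∧ p.2.2 ∈ Icc 1 N := by
    intro p hp
    have := (hZ p hp).1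
    rw [grid, mem_product, mem_product] at this
    exact this
  by_cases he : e = 0
  · subst he
    have hone : ∀ (g : ℕ × ℕ × ℕ → ℕ × ℕ), (∀ p ∈ Z, g p ∈ Icc 1 N ×ˢ Icc 1 N) →
        (∀ p ∈ Z, ∀ q ∈ Z, g p = g q → p = q) → Z.card ≤ 2 * N ^ 2 := by
      intro g h1 h2
      have := card_le_of_fibers Z g (Icc 1 N ×ˢ Icc 1 N) 1 h1 (fun b _ => fiber_one Z g h2 b)
      rw [card_two] at this
      omega
    by_cases ha : a = 0
    · subst ha
      by_cases hb : b = 0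
      · subst hb
        have hc : c ≠ 0 := fun hc => h0 ⟨rfl, rfl, hc, rfl⟩
        refine hone (fun p => (p.1, p.2.1)) (fun p hp => mem_product.mpr
          ⟨(hmem p hp).1, (hmem p hp).2.1⟩) ?_
        rintro ⟨x, y, z⟩ hp ⟨x', y', z'⟩ hq h
        have e1 := (hZ _ hp).2
        have e2 := (hZ _ hq).2
        simp only [Prod.mk.injEq] at h e1 e2 ⊢
        refine ⟨h.1, h.2, ?_⟩
        have : c * ((z:ℂ) - z') = 0 := by linear_combination e1 - e2
        rcases mul_eq_zero.mp this with h' | h'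
        · exact absurd h' hc
        · exact_mod_cast sub_eq_zero.mp h'
      · refine hone (fun p => (p.1, p.2.2)) (fun p hp => mem_product.mpr
          ⟨(hmem p hp).1, (hmem p hp).2.2⟩) ?_
        rintro ⟨x, y, z⟩ hp ⟨x', y', z'⟩ hq h
        have e1 := (hZ _ hp).2
        have e2 := (hZ _ hq).2
        simp only [Prod.mk.injEq] at h e1 e2 ⊢
        obtain ⟨rfl, rfl⟩ := h
        refine ⟨rfl, ?_, rfl⟩
        have : b * ((y:ℂ) - y') = 0 := by linear_combination e1 - e2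
        rcases mul_eq_zero.mp this with h' | h'
        · exact absurd h' hb
        · exact_mod_cast sub_eq_zero.mp h'
    · refine hone (fun p => (p.2.1, p.2.2)) (fun p hp => mem_product.mpr
          ⟨(hmem p hp).2.1, (hmem p hp).2.2⟩) ?_
      rintro ⟨x, y, z⟩ hp ⟨x', y', z'⟩ hq h
      have e1 := (hZ _ hp).2
      have e2 := (hZ _ hq).2
      simp only [Prod.mk.injEq] at h e1 e2 ⊢
      obtain ⟨rfl, rfl⟩ := h
      refine ⟨?_, rfl, rfl⟩
      have : a * ((x:ℂ) - x') = 0 := by linear_combination e1 - e2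
      rcases mul_eq_zero.mp this with h' | h'
      · exact absurd h' ha
      · exact_mod_cast sub_eq_zero.mp h'
  · have h := card_le_of_fibers Z (fun p => (p.1, p.2.2)) (Icc 1 N ×ˢ Icc 1 N) 2
      (fun p hp => mem_product.mpr ⟨(hmem p hp).1, (hmem p hp).2.2⟩) ?_
    · rw [card_two] at h
      exact h
    · rintro ⟨x, z⟩ -
      by_contra hcon
      push Not at hcon
      rw [two_lt_card] at hcon
      obtain ⟨⟨x1, y1, z1⟩, h1, ⟨x2, y2, z2⟩, h2, ⟨x3, y3, z3⟩, h3, h12, h13, h23⟩ := hcon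
      rw [mem_filter] at h1 h2 h3
      obtain ⟨h1, g1⟩ := h1
      obtain ⟨h2, g2⟩ := h2
      obtain ⟨h3, g3⟩ := h3
      simp only [Prod.mk.injEq] at g1 g2 g3
      obtain ⟨rfl, rfl⟩ := g1
      obtain ⟨rfl, rfl⟩ := g2
      obtain ⟨rfl, rfl⟩ := g3
      have e1 := (hZ _ h1).2
      have e2 := (hZ _ h2).2
      have e3 := (hZ _ h3).2
      simp only at e1 e2 e3
      have n12 : y1 ≠ y2 := fun h => h12 (by rw [h])
      have n13 : y1 ≠ y3 := fun h => h13 (by rw [h])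
      have n23 : y2 ≠ y3 := fun h => h23 (by rw [h])
      exact quad_false (A := -e) (B := b) (D := a * x3 + c * z3 + e * (x3 * z3) - f)
        (neg_ne_zero.mpr he) n12 n13 n23 (by linear_combination e1) (by linear_combination e2)
        (by linear_combination e3)

/-- Two independent equations, of which the first one is linear: at most `2 N` points.
Case of a nonzero coefficient of `x`. -/
theorem count_two_x (N : ℕ) (a b c f b' c' e' f' : ℂ) (ha : a ≠ 0)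
    (h0 : ¬ (b' = 0 ∧ c' = 0 ∧ e' = 0)) (Z : Finset (ℕ × ℕ × ℕ))
    (hZ : ∀ p ∈ Z, p ∈ grid N ∧ a * p.1 + b * p.2.1 + c * p.2.2 = f ∧
      b' * p.2.1 + c' * p.2.2 + e' * (p.1 * p.2.2 - (p.2.1 : ℂ) ^ 2) = f') :
    Z.card ≤ 2 * N := by
  classical
  have hmem : ∀ p ∈ Z, p.1 ∈ Icc 1 N ∧ p.2.1 ∈ Icc 1 N ∧ p.2.2 ∈ Icc 1 N := by
    intro p hp
    have := (hZ p hp).1
    rw [grid, mem_product, mem_product] at this
    exact this
  have hx : ∀ p ∈ Z, ∀ q ∈ Z, p.2.1 = q.2.1 → p.2.2 = q.2.2 → p = q := by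
    rintro ⟨x, y, z⟩ hp ⟨x', y', z'⟩ hq h1 h2
    have e1 := (hZ _ hp).2.1
    have e2 := (hZ _ hq).2.1
    simp only at h1 h2 e1 e2
    subst h1; subst h2
    have : a * ((x:ℂ) - x') = 0 := by linear_combination e1 - e2
    rcases mul_eq_zero.mp this with h' | h'
    · exact absurd h' ha
    · rw [show x = x' by exact_mod_cast sub_eq_zero.mp h']
  by_cases he : e' = 0
  · subst he
    by_cases hb : b' = 0
    · subst hb
      have hc : c' ≠ 0 := fun hc => h0 ⟨rfl, hc, rfl⟩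
      have := card_le_of_fibers Z (fun p => p.2.1) (Icc 1 N) 1 (fun p hp => (hmem p hp).2.1)
        (fun b _ => fiber_one Z _ ?_ b)
      · rw [Nat.card_Icc] at this; omega
      · intro p hp q hq h
        refine hx p hp q hq h ?_
        have e1 := (hZ _ hp).2.2
        have e2 := (hZ _ hq).2.2
        have : c' * ((p.2.2:ℂ) - q.2.2) = 0 := by linear_combination e1 - e2
        rcases mul_eq_zero.mp this with h' | h'
        · exact absurd h' hc
        · exact_mod_cast sub_eq_zero.mp h'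
    · have := card_le_of_fibers Z (fun p => p.2.2) (Icc 1 N) 1 (fun p hp => (hmem p hp).2.2)
        (fun b _ => fiber_one Z _ ?_ b)
      · rw [Nat.card_Icc] at this; omega
      · intro p hp q hq h
        refine hx p hp q hq ?_ h
        have e1 := (hZ _ hp).2.2
        have e2 := (hZ _ hq).2.2
        rw [h] at e1
        have : b' * ((p.2.1:ℂ) - q.2.1) = 0 := by linear_combination e1 - e2
        rcases mul_eq_zero.mp this with h' | h'
        · exact absurd h' hb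
        · exact_mod_cast sub_eq_zero.mp h'
  · have h := card_le_of_fibers Z (fun p => p.2.2) (Icc 1 N) 2 (fun p hp => (hmem p hp).2.2) ?_
    · rw [Nat.card_Icc] at h; omega
    · intro z _
      by_contra hcon
      push Not at hcon
      rw [two_lt_card] at hcon
      obtain ⟨p1, h1, p2, h2, p3, h3, h12, h13, h23⟩ := hcon
      rw [mem_filter] at h1 h2 h3
      obtain ⟨h1, g1⟩ := h1
      obtain ⟨h2, g2⟩ := h2
      obtain ⟨h3, g3⟩ := h3
      have n12 : p1.2.1 ≠ p2.2.1 := fun h => h12 (hx _ h1 _ h2 h (g1.trans g2.symm))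
      have n13 : p1.2.1 ≠ p3.2.1 := fun h => h13 (hx _ h1 _ h3 h (g1.trans g3.symm))
      have n23 : p2.2.1 ≠ p3.2.1 := fun h => h23 (hx _ h2 _ h3 h (g2.trans g3.symm))
      have key : ∀ p ∈ Z, p.2.2 = z → (-(a * e')) * (p.2.1:ℂ) ^ 2 +
          (a * b' - e' * b * z) * p.2.1 + (a * c' * z + e' * (f - c * z) * z - a * f') = 0 := by
        intro p hp hz
        have e1 := (hZ _ hp).2.1
        have e2 := (hZ _ hp).2.2
        rw [hz] at e1 e2
        linear_combination a * e2 - e' * z * e1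
      exact quad_false (neg_ne_zero.mpr (mul_ne_zero ha he)) n12 n13 n23 (key _ h1 g1)
        (key _ h2 g2) (key _ h3 g3)

theorem count_two_z (N : ℕ) (a b c f a' b' e' f' : ℂ) (hc : c ≠ 0)
    (h0 : ¬ (b' = 0 ∧ a' = 0 ∧ e' = 0)) (Z : Finset (ℕ × ℕ × ℕ))
    (hZ : ∀ p ∈ Z, p ∈ grid N ∧ a * p.1 + b * p.2.1 + c * p.2.2 = f ∧
      a' * p.1 + b' * p.2.1 + e' * (p.1 * p.2.2 - (p.2.1 : ℂ) ^ 2) = f') :
    Z.card ≤ 2 * N := by
  classical
  have hinj : Function.Injective (fun p : ℕ × ℕ × ℕ => (p.2.2, p.2.1, p.1)) := by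
    rintro ⟨x, y, z⟩ ⟨x', y', z'⟩ h
    simp only [Prod.mk.injEq] at h ⊢
    exact ⟨h.2.2, h.2.1, h.1⟩
  rw [← card_image_of_injective Z hinj]
  refine count_two_x N c b a f b' a' e' f' hc h0 _ ?_
  intro p hp
  obtain ⟨q, hq, rfl⟩ := mem_image.mp hp
  obtain ⟨h1, h2, h3⟩ := hZ q hq
  refine ⟨?_, ?_, ?_⟩
  · rw [grid, mem_product, mem_product] at h1 ⊢
    exact ⟨h1.2.2, h1.2.1, h1.1⟩
  · simp only
    linear_combination h2
  · simp only
    linear_combination h3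

theorem count_two_y (N : ℕ) (b f a' c' e' f' : ℂ) (hb : b ≠ 0)
    (h0 : ¬ (a' = 0 ∧ c' = 0 ∧ e' = 0)) (Z : Finset (ℕ × ℕ × ℕ))
    (hZ : ∀ p ∈ Z, p ∈ grid N ∧ b * p.2.1 = f ∧
      a' * p.1 + c' * p.2.2 + e' * (p.1 * p.2.2 - (p.2.1 : ℂ) ^ 2) = f') :
    Z.card ≤ 2 * N := by
  classical
  have hmem : ∀ p ∈ Z, p.1 ∈ Icc 1 N ∧ p.2.1 ∈ Icc 1 N ∧ p.2.2 ∈ Icc 1 N := by
    intro p hp
    have := (hZ p hp).1
    rw [grid, mem_product, mem_product] at this
    exact this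
  have hy : ∀ p ∈ Z, ∀ q ∈ Z, p.2.1 = q.2.1 := by
    intro p hp q hq
    have e1 := (hZ _ hp).2.1
    have e2 := (hZ _ hq).2.1
    have : b * ((p.2.1:ℂ) - q.2.1) = 0 := by linear_combination e1 - e2
    rcases mul_eq_zero.mp this with h' | h'
    · exact absurd h' hb
    · exact_mod_cast sub_eq_zero.mp h'
  have hext : ∀ p ∈ Z, ∀ q ∈ Z, p.1 = q.1 → p.2.2 = q.2.2 → p = q := by
    intro p hp q hq h1 h2
    exact Prod.ext h1 (Prod.ext (hy p hp q hq) h2)
  by_cases he : e' = 0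
  · subst he
    by_cases ha : a' = 0
    · subst ha
      have hc : c' ≠ 0 := fun hc => h0 ⟨rfl, hc, rfl⟩
      have := card_le_of_fibers Z (fun p => p.1) (Icc 1 N) 1 (fun p hp => (hmem p hp).1)
        (fun b _ => fiber_one Z _ ?_ b)
      · rw [Nat.card_Icc] at this; omega
      · intro p hp q hq h
        refine hext p hp q hq h ?_
        have e1 := (hZ _ hp).2.2
        have e2 := (hZ _ hq).2.2
        have : c' * ((p.2.2:ℂ) - q.2.2) = 0 := by linear_combination e1 - e2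
        rcases mul_eq_zero.mp this with h' | h'
        · exact absurd h' hc
        · exact_mod_cast sub_eq_zero.mp h'
    · have := card_le_of_fibers Z (fun p => p.2.2) (Icc 1 N) 1 (fun p hp => (hmem p hp).2.2)
        (fun b _ => fiber_one Z _ ?_ b)
      · rw [Nat.card_Icc] at this; omega
      · intro p hp q hq h
        refine hext p hp q hq ?_ h
        have e1 := (hZ _ hp).2.2
        have e2 := (hZ _ hq).2.2
        rw [h] at e1
        have : a' * ((p.1:ℂ) - q.1) = 0 := by linear_combination e1 - e2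
        rcases mul_eq_zero.mp this with h' | h'
        · exact absurd h' ha
        · exact_mod_cast sub_eq_zero.mp h'
  · have hsplit := card_filter_add_card_filter_not (s := Z) (fun p => a' + e' * (p.2.2:ℂ) = 0)
    have i1 : (Z.filter fun p => a' + e' * (p.2.2:ℂ) = 0).card ≤ N := by
      have := card_le_of_fibers (Z.filter fun p => a' + e' * (p.2.2:ℂ) = 0) (fun p => p.1)
        (Icc 1 N) 1 (fun p hp => (hmem p (mem_filter.mp hp).1).1)
        (fun b _ => fiber_one _ _ ?_ b)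
      · rw [Nat.card_Icc] at this; omega
      · intro p hp q hq h
        rw [mem_filter] at hp hq
        refine hext p hp.1 q hq.1 h ?_
        have : e' * ((p.2.2:ℂ) - q.2.2) = 0 := by linear_combination hp.2 - hq.2
        rcases mul_eq_zero.mp this with h' | h'
        · exact absurd h' he
        · exact_mod_cast sub_eq_zero.mp h'
    have i2 : (Z.filter fun p => ¬ (a' + e' * (p.2.2:ℂ) = 0)).card ≤ N := by
      have := card_le_of_fibers (Z.filter fun p => ¬ (a' + e' * (p.2.2:ℂ) = 0)) (fun p => p.2.2)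
        (Icc 1 N) 1 (fun p hp => (hmem p (mem_filter.mp hp).1).2.2)
        (fun b _ => fiber_one _ _ ?_ b)
      · rw [Nat.card_Icc] at this; omega
      · intro p hp q hq h
        rw [mem_filter] at hp hq
        refine hext p hp.1 q hq.1 ?_ h
        have e1 := (hZ _ hp.1).2.2
        have e2 := (hZ _ hq.1).2.2
        have hn := hp.2
        rw [h] at e1 hn
        rw [hy p hp.1 q hq.1] at e1
        have : (a' + e' * (q.2.2:ℂ)) * ((p.1:ℂ) - q.1) = 0 := by linear_combination e1 - e2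
        rcases mul_eq_zero.mp this with h' | h'
        · exact absurd h' hn
        · exact_mod_cast sub_eq_zero.mp h'
    omega

/-! ### Linear algebra -/

theorem exists_functional (D : Submodule ℂ (Fin 4 → ℂ)) (hD : finrank ℂ D ≤ 3) :
    ∃ a b c e : ℂ, ¬ (a = 0 ∧ b = 0 ∧ c = 0 ∧ e = 0) ∧
      ∀ v ∈ D, a * v 0 + b * v 1 + c * v 2 + e * v 3 = 0 := by
  have hlt : D < ⊤ := by
    rw [lt_top_iff_ne_top]
    rintro rfl
    rw [finrank_top, finrank_fin_fun] at hD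
    omega
  obtain ⟨f, hf, hDf⟩ := Submodule.exists_le_ker_of_lt_top D hlt
  have hexp : ∀ v : Fin 4 → ℂ, f v = f (Pi.single 0 1) * v 0 + f (Pi.single 1 1) * v 1 +
      f (Pi.single 2 1) * v 2 + f (Pi.single 3 1) * v 3 := by
    intro v
    have hv : v = v 0 • Pi.single (M := fun _ => ℂ) 0 1 + v 1 • Pi.single (M := fun _ => ℂ) 1 1 +
        v 2 • Pi.single (M := fun _ => ℂ) 2 1 + v 3 • Pi.single (M := fun _ => ℂ) 3 1 := by
      funext i
      fin_cases i <;> simp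
    conv_lhs => rw [hv]
    simp only [map_add, map_smul, smul_eq_mul]
    ring
  refine ⟨f (Pi.single 0 1), f (Pi.single 1 1), f (Pi.single 2 1), f (Pi.single 3 1), ?_, ?_⟩
  · rintro ⟨h0, h1, h2, h3⟩
    apply hf
    refine LinearMap.ext fun v => ?_
    rw [hexp, h0, h1, h2, h3]
    simp
  · intro v hv
    rw [← hexp]
    exact hDf hv

theorem exists_functional_two (D : Submodule ℂ (Fin 4 → ℂ)) (hD : finrank ℂ D ≤ 2)
    (u : Fin 4 → ℂ) : ∃ a b c e : ℂ, ¬ (a = 0 ∧ b = 0 ∧ c = 0 ∧ e = 0) ∧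
      (∀ v ∈ D, a * v 0 + b * v 1 + c * v 2 + e * v 3 = 0) ∧
      a * u 0 + b * u 1 + c * u 2 + e * u 3 = 0 := by
  have h1 : finrank ℂ (D ⊔ Submodule.span ℂ {u} : Submodule ℂ (Fin 4 → ℂ)) ≤ 3 := by
    have h2 := Submodule.finrank_add_le_finrank_add_finrank D (Submodule.span ℂ {u})
    have h3 : finrank ℂ (Submodule.span ℂ {u}) ≤ 1 := by
      have := finrank_span_le_card (R := ℂ) ({u} : Set (Fin 4 → ℂ))
      simpa using this
    omega
  obtain ⟨a, b, c, e, h0, h⟩ := exists_functional _ h1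
  exact ⟨a, b, c, e, h0, fun v hv => h v (Submodule.mem_sup_left hv),
    h u (Submodule.mem_sup_right (Submodule.mem_span_singleton_self u))⟩

/-- the first four coordinates of the points -/
def P4 (p : ℕ × ℕ × ℕ) : Fin 4 → ℂ :=
  ![(p.1 : ℂ), p.2.1, p.2.2, p.1 * p.2.2 - (p.2.1 : ℂ) ^ 2]

theorem flat_three (N : ℕ) (D : Submodule ℂ (Fin 4 → ℂ)) (hD : finrank ℂ D ≤ 3)
    (Z : Finset (ℕ × ℕ × ℕ)) (hZ : Z ⊆ grid N) (hd : ∀ p ∈ Z, ∀ q ∈ Z, P4 p - P4 q ∈ D) :
    Z.card ≤ 2 * N ^ 2 := by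
  rcases Z.eq_empty_or_nonempty with rfl | ⟨p0, hp0⟩
  · simp
  obtain ⟨a, b, c, e, h0, h⟩ := exists_functional D hD
  refine count_three N a b c e (a * p0.1 + b * p0.2.1 + c * p0.2.2 +
    e * (p0.1 * p0.2.2 - (p0.2.1 : ℂ) ^ 2)) h0 Z ?_
  intro p hp
  refine ⟨hZ hp, ?_⟩
  have := h _ (hd p hp p0 hp0)
  simp [P4] at this
  linear_combination this

theorem flat_two (N : ℕ) (D : Submodule ℂ (Fin 4 → ℂ)) (hD : finrank ℂ D ≤ 2)
    (Z : Finset (ℕ × ℕ × ℕ)) (hZ : Z ⊆ grid N) (hd : ∀ p ∈ Z, ∀ q ∈ Z, P4 p - P4 q ∈ D) :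
    Z.card ≤ 2 * N := by
  rcases Z.eq_empty_or_nonempty with rfl | ⟨p0, hp0⟩
  · simp
  obtain ⟨a, b, c, e, h0, h, hu⟩ := exists_functional_two D hD ![0, 0, 0, 1]
  have he : e = 0 := by simpa using hu
  subst he
  have E1 : ∀ p ∈ Z, a * p.1 + b * p.2.1 + c * p.2.2 = a * p0.1 + b * p0.2.1 + c * p0.2.2 := by
    intro p hp
    have := h _ (hd p hp p0 hp0)
    simp [P4] at this
    linear_combination this
  by_cases ha : a = 0
  · by_cases hc : c = 0
    · have hb : b ≠ 0 := fun hb => h0 ⟨ha, hb, hc, rfl⟩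
      obtain ⟨a', b', c', e', h0', h', hu'⟩ := exists_functional_two D hD ![0, 1, 0, 0]
      have hb' : b' = 0 := by simpa using hu'
      subst hb'
      refine count_two_y N b (b * p0.2.1) a' c' e' (a' * p0.1 + c' * p0.2.2 +
        e' * (p0.1 * p0.2.2 - (p0.2.1 : ℂ) ^ 2)) hb (fun hh => h0' ⟨hh.1, rfl, hh.2.1, hh.2.2⟩)
        Z ?_
      intro p hp
      refine ⟨hZ hp, ?_, ?_⟩
      · have := E1 p hp
        rw [ha, hc] at this
        linear_combination this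
      · have := h' _ (hd p hp p0 hp0)
        simp [P4] at this
        linear_combination this
    · obtain ⟨a', b', c', e', h0', h', hu'⟩ := exists_functional_two D hD ![0, 0, 1, 0]
      have hc' : c' = 0 := by simpa using hu'
      subst hc'
      refine count_two_z N a b c (a * p0.1 + b * p0.2.1 + c * p0.2.2) a' b' e' (a' * p0.1 + b' * p0.2.1 +
        e' * (p0.1 * p0.2.2 - (p0.2.1 : ℂ) ^ 2)) hc (fun hh => h0' ⟨hh.2.1, hh.1, rfl, hh.2.2⟩)
        Z ?_
      intro p hp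
      refine ⟨hZ hp, E1 p hp, ?_⟩
      have := h' _ (hd p hp p0 hp0)
      simp [P4] at this
      linear_combination this
  · obtain ⟨a', b', c', e', h0', h', hu'⟩ := exists_functional_two D hD ![1, 0, 0, 0]
    have ha' : a' = 0 := by simpa using hu'
    subst ha'
    refine count_two_x N a b c (a * p0.1 + b * p0.2.1 + c * p0.2.2) b' c' e' (b' * p0.2.1 + c' * p0.2.2 +
      e' * (p0.1 * p0.2.2 - (p0.2.1 : ℂ) ^ 2)) ha (fun hh => h0' ⟨rfl, hh.1, hh.2.1, hh.2.2⟩)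
      Z ?_
    intro p hp
    refine ⟨hZ hp, E1 p hp, ?_⟩
    have := h' _ (hd p hp p0 hp0)
    simp [P4] at this
    linear_combination this

/-! ### The point set -/

/-- the point `(x, y, z, x z - y ^ 2, 0, ..., 0)` -/
def pt (d : ℕ) (p : ℕ × ℕ × ℕ) : Fin d → ℂ := fun i =>
  if h : i.val < 4 then P4 p ⟨i.val, h⟩ else 0

theorem pt_castLE {d : ℕ} (hd : 4 ≤ d) (p : ℕ × ℕ × ℕ) (i : Fin 4) :
    pt d p (Fin.castLE hd i) = P4 p i := by
  simp [pt]

theorem pt_injective {d : ℕ} (hd : 4 ≤ d) : Function.Injective (pt d) := by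
  rintro ⟨x, y, z⟩ ⟨x', y', z'⟩ h
  have h0 := congrFun h (Fin.castLE hd 0)
  have h1 := congrFun h (Fin.castLE hd 1)
  have h2 := congrFun h (Fin.castLE hd 2)
  rw [pt_castLE, pt_castLE] at h0 h1 h2
  simp [P4] at h0 h1 h2
  rw [h0, h1, h2]

open scoped Classical in
/-- the point set -/
noncomputable def V (d N : ℕ) : Finset (Fin d → ℂ) := (grid N).image (pt d)

theorem card_V {d : ℕ} (hd : 4 ≤ d) (N : ℕ) : (V d N).card = N ^ 3 := by
  classical
  rw [V, card_image_of_injective _ (pt_injective hd), card_grid]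

theorem ncard_flat {d : ℕ} (hd : 4 ≤ d) (N : ℕ) (F : AffineSubspace ℂ (Fin d → ℂ)) :
    ∃ (Z : Finset (ℕ × ℕ × ℕ)) (D : Submodule ℂ (Fin 4 → ℂ)), Z ⊆ grid N ∧
      finrank ℂ D ≤ finrank ℂ F.direction ∧ (∀ p ∈ Z, ∀ q ∈ Z, P4 p - P4 q ∈ D) ∧
      {p | p ∈ V d N ∧ p ∈ F}.ncard ≤ Z.card := by
  classical
  refine ⟨(grid N).filter (fun p => pt d p ∈ F),
    F.direction.map (LinearMap.funLeft ℂ ℂ (Fin.castLE hd)), filter_subset _ _,
    Submodule.finrank_map_le _ _, ?_, ?_⟩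
  · intro p hp q hq
    rw [mem_filter] at hp hq
    refine Submodule.mem_map.mpr ⟨pt d p - pt d q, ?_, ?_⟩
    · exact AffineSubspace.vsub_mem_direction hp.2 hq.2
    · funext i
      simp [LinearMap.funLeft_apply, pt_castLE]
  · have hsub : {p | p ∈ V d N ∧ p ∈ F} ⊆
        (((grid N).filter (fun p => pt d p ∈ F)).image (pt d) : Finset _) := by
      rintro p ⟨hp, hF⟩
      obtain ⟨q, hq, rfl⟩ := mem_image.mp hp
      exact mem_coe.mpr (mem_image_of_mem _ (mem_filter.mpr ⟨hq, hF⟩))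
    calc {p | p ∈ V d N ∧ p ∈ F}.ncard
        ≤ ((((grid N).filter (fun p => pt d p ∈ F)).image (pt d) : Finset _) :
            Set (Fin d → ℂ)).ncard := Set.ncard_le_ncard hsub (Finset.finite_toSet _)
      _ ≤ _ := by
        rw [Set.ncard_coe_finset]
        exact card_image_le

theorem maxOnFlat_two {d : ℕ} (hd : 4 ≤ d) (N : ℕ) : maxOnFlat (V d N) 2 ≤ 2 * N := by
  refine csSup_le' ?_
  rintro m ⟨F, -, hF, rfl⟩
  obtain ⟨Z, D, h1, h2, h3, h4⟩ := ncard_flat hd N F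
  exact h4.trans (flat_two N D (h2.trans hF.le) Z h1 h3)

theorem maxOnFlat_three {d : ℕ} (hd : 4 ≤ d) (N : ℕ) : maxOnFlat (V d N) 3 ≤ 2 * N ^ 2 := by
  refine csSup_le' ?_
  rintro m ⟨F, -, hF, rfl⟩
  obtain ⟨Z, D, h1, h2, h3, h4⟩ := ncard_flat hd N F
  exact h4.trans (flat_three N D (h2.trans hF.le) Z h1 h3)

theorem maxOnFlat_le {d : ℕ} (hd : 4 ≤ d) (N l : ℕ) : maxOnFlat (V d N) l ≤ N ^ 3 := by
  refine csSup_le' ?_
  rintro m ⟨F, -, hF, rfl⟩
  rw [← card_V hd N, ← Set.ncard_coe_finset]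
  exact Set.ncard_le_ncard (fun p hp => hp.1) (Finset.finite_toSet _)

/-! ### The lines -/

/-- the next point of the line in the direction `s` -/
def shift (s : ℕ) (p : ℕ × ℕ × ℕ) (t : ℕ) : ℕ × ℕ × ℕ :=
  (p.1 + t * s ^ 2, p.2.1 + t * s, p.2.2 + t)

/-- the direction vector -/
noncomputable def dir (d s : ℕ) (p : ℕ × ℕ × ℕ) : Fin d → ℂ := pt d (shift s p 1) - pt d p

/-- the line through `p` with parameter `s` -/
noncomputable def line (d s : ℕ) (p : ℕ × ℕ × ℕ) : AffineSubspace ℂ (Fin d → ℂ) :=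
  AffineSubspace.mk' (pt d p) (Submodule.span ℂ {dir d s p})

theorem pt_shift (d s : ℕ) (p : ℕ × ℕ × ℕ) (t : ℕ) :
    pt d (shift s p t) - pt d p = (t : ℂ) • dir d s p := by
  funext i
  obtain ⟨i, hi⟩ := i
  simp only [dir, pt, shift, Pi.sub_apply, Pi.smul_apply, smul_eq_mul]
  by_cases h : i < 4
  · simp only [h, dif_pos]
    interval_cases i <;> (simp [P4]; try ring)
  · simp [h]

theorem shift_mem_line (d s : ℕ) (p : ℕ × ℕ × ℕ) (t : ℕ) : pt d (shift s p t) ∈ line d s p := by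
  rw [line, AffineSubspace.mem_mk', vsub_eq_sub, pt_shift]
  exact Submodule.smul_mem _ _ (Submodule.mem_span_singleton_self _)

theorem dir_zero {d : ℕ} (hd : 4 ≤ d) (s : ℕ) (p : ℕ × ℕ × ℕ) :
    dir d s p (Fin.castLE hd 0) = (s : ℂ) ^ 2 := by
  simp [dir, pt_castLE, P4, shift]

theorem dir_one {d : ℕ} (hd : 4 ≤ d) (s : ℕ) (p : ℕ × ℕ × ℕ) :
    dir d s p (Fin.castLE hd 1) = (s : ℂ) := by
  simp [dir, pt_castLE, P4, shift]

theorem dir_two {d : ℕ} (hd : 4 ≤ d) (s : ℕ) (p : ℕ × ℕ × ℕ) :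
    dir d s p (Fin.castLE hd 2) = 1 := by
  simp [dir, pt_castLE, P4, shift]

theorem dir_ne_zero {d : ℕ} (hd : 4 ≤ d) (s : ℕ) (p : ℕ × ℕ × ℕ) : dir d s p ≠ 0 := by
  intro h
  have := dir_two hd s p
  rw [h] at this
  simp at this

theorem line_injective {d : ℕ} (hd : 4 ≤ d) {s s' : ℕ} {p p' : ℕ × ℕ × ℕ}
    (hp : p.1 ∈ Icc 1 (s ^ 2)) (hp' : p'.1 ∈ Icc 1 (s' ^ 2)) (h : line d s p = line d s' p') :
    s = s' ∧ p = p' := by
  have hdir := congrArg AffineSubspace.direction h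
  rw [line, line, AffineSubspace.direction_mk', AffineSubspace.direction_mk'] at hdir
  have h1 : dir d s p ∈ Submodule.span ℂ {dir d s' p'} := by
    rw [← hdir]
    exact Submodule.mem_span_singleton_self _
  obtain ⟨c, hc⟩ := Submodule.mem_span_singleton.mp h1
  have hc2 := congrFun hc (Fin.castLE hd 2)
  have hc1 := congrFun hc (Fin.castLE hd 1)
  rw [Pi.smul_apply, dir_two, dir_two, smul_eq_mul, mul_one] at hc2
  rw [Pi.smul_apply, dir_one, dir_one, hc2, smul_eq_mul, one_mul] at hc1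
  have hs : s = s' := by exact_mod_cast hc1.symm
  subst hs
  refine ⟨rfl, ?_⟩
  have h2 : pt d p' ∈ line d s p := by
    rw [h, line, AffineSubspace.mem_mk', vsub_self]
    exact Submodule.zero_mem _
  rw [line, AffineSubspace.mem_mk', vsub_eq_sub] at h2
  obtain ⟨e, he⟩ := Submodule.mem_span_singleton.mp h2
  have e0 := congrFun he (Fin.castLE hd 0)
  have e1 := congrFun he (Fin.castLE hd 1)
  have e2 := congrFun he (Fin.castLE hd 2)
  rw [Pi.smul_apply, dir_zero, Pi.sub_apply, pt_castLE, pt_castLE, smul_eq_mul] at e0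
  rw [Pi.smul_apply, dir_one, Pi.sub_apply, pt_castLE, pt_castLE, smul_eq_mul] at e1
  rw [Pi.smul_apply, dir_two, Pi.sub_apply, pt_castLE, pt_castLE, smul_eq_mul, mul_one] at e2
  simp [P4] at e0 e1 e2
  obtain ⟨x, y, z⟩ := p
  obtain ⟨x', y', z'⟩ := p'
  simp only at e0 e1 e2 hp hp'
  rw [e2] at e0 e1
  have f0 : ((z' : ℤ) - z) * (s : ℤ) ^ 2 = (x' : ℤ) - x := by exact_mod_cast e0
  have f1 : ((z' : ℤ) - z) * (s : ℤ) = (y' : ℤ) - y := by exact_mod_cast e1
  rw [mem_Icc] at hp hp'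
  have b1 : (x : ℤ) ≤ (s : ℤ) ^ 2 := by exact_mod_cast hp.2
  have b2 : (x' : ℤ) ≤ (s : ℤ) ^ 2 := by exact_mod_cast hp'.2
  have b3 : (1 : ℤ) ≤ x := by exact_mod_cast hp.1
  have b4 : (1 : ℤ) ≤ x' := by exact_mod_cast hp'.1
  have hz : (z' : ℤ) - z = 0 := by
    by_contra hne
    rcases lt_or_gt_of_ne hne with hlt | hgt
    · nlinarith
    · nlinarith
  rw [hz] at f0 f1
  have g0 : x = x' := by omega
  have g1 : y = y' := by omega
  have g2 : z = z' := by omega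
  rw [g0, g1, g2]

theorem eq_mk' {d : ℕ} {L : AffineSubspace ℂ (Fin d → ℂ)} (hL : finrank ℂ L.direction = 1)
    {p q : Fin d → ℂ} (hp : p ∈ L) (hq : q ∈ L) (hpq : p ≠ q) :
    L = AffineSubspace.mk' p (Submodule.span ℂ {q - p}) := by
  have h1 : Submodule.span ℂ {q - p} = L.direction := by
    apply Submodule.eq_of_le_of_finrank_eq
    · rw [Submodule.span_singleton_le_iff_mem]
      exact AffineSubspace.vsub_mem_direction hq hp
    · rw [hL, finrank_span_singleton (sub_ne_zero.mpr hpq.symm)]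
  rw [h1]
  exact (AffineSubspace.mk'_eq hp).symm

theorem richLines_finite {d : ℕ} (W : Finset (Fin d → ℂ)) {r : ℕ} (hr : 2 ≤ r) :
    (richLines W r).Finite := by
  classical
  refine Set.Finite.subset ((W ×ˢ W).image (fun x =>
    AffineSubspace.mk' x.1 (Submodule.span ℂ {x.2 - x.1})) : Finset _).finite_toSet ?_
  rintro L ⟨-, h1, h2⟩
  have h3 : 1 < {p | p ∈ W ∧ p ∈ L}.ncard := by omega
  have hfin : {p | p ∈ W ∧ p ∈ L}.Finite := W.finite_toSet.subset (fun p hp => hp.1)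
  obtain ⟨p, q, hp, hq, hpq⟩ := (Set.one_lt_ncard_iff hfin).mp h3
  refine mem_coe.mpr (mem_image.mpr ⟨(p, q), mem_product.mpr ⟨hp.1, hq.1⟩, ?_⟩)
  exact (eq_mk' h1 hp.2 hq.2 hpq).symm

theorem line_rich {d : ℕ} (hd : 4 ≤ d) {S r s h : ℕ} (hh : h = S ^ 2 * r) (hs : s ∈ Icc 1 S)
    {p : ℕ × ℕ × ℕ} (hp1 : p.1 ∈ Icc 1 (s ^ 2)) (hp2 : p.2.1 ∈ Icc 1 h) (hp3 : p.2.2 ∈ Icc 1 h) :
    line d s p ∈ richLines (V d (2 * h)) r := by
  classical
  refine ⟨⟨pt d p, ?_⟩, ?_, ?_⟩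
  · show pt d p ∈ line d s p
    rw [line, AffineSubspace.mem_mk', vsub_self]
    exact Submodule.zero_mem _
  · rw [line, AffineSubspace.direction_mk', finrank_span_singleton (dir_ne_zero hd s p)]
  · have hinj : Function.Injective (fun t : ℕ => pt d (shift s p t)) := by
      intro t t' htt
      have := pt_injective hd htt
      simp only [shift, Prod.mk.injEq] at this
      omega
    have hsub : (((range r).image (fun t : ℕ => pt d (shift s p t)) : Finset _) :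
        Set (Fin d → ℂ)) ⊆ {q | q ∈ V d (2 * h) ∧ q ∈ line d s p} := by
      intro q hq
      obtain ⟨t, ht, rfl⟩ := mem_image.mp (mem_coe.mp hq)
      refine ⟨?_, shift_mem_line d s p t⟩
      refine mem_image_of_mem _ ?_
      rw [mem_range] at ht
      rw [mem_Icc] at hs hp1 hp2 hp3
      have hS2 : s ^ 2 ≤ S ^ 2 := Nat.pow_le_pow_left hs.2 2
      have hsS : s ≤ S ^ 2 := by nlinarith [hs.1, hs.2]
      have k1 : t * s ^ 2 + s ^ 2 ≤ h := by
        rw [hh]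
        calc t * s ^ 2 + s ^ 2 = s ^ 2 * (t + 1) := by ring
          _ ≤ S ^ 2 * r := Nat.mul_le_mul hS2 ht
      have k2 : t * s ≤ h := by
        rw [hh]
        calc t * s = s * t := by ring
          _ ≤ S ^ 2 * r := Nat.mul_le_mul hsS ht.le
      have k3 : t ≤ h := by
        rw [hh]
        calc t = 1 * t := by ring
          _ ≤ S ^ 2 * r := Nat.mul_le_mul (by nlinarith [hs.1, hs.2]) ht.le
      rw [grid, mem_product, mem_product, mem_Icc, mem_Icc, mem_Icc]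
      simp only [shift]
      omega
    calc r = ((range r).image (fun t : ℕ => pt d (shift s p t))).card := by
          rw [card_image_of_injective _ hinj, card_range]
      _ = (((range r).image (fun t : ℕ => pt d (shift s p t)) : Finset _) :
            Set (Fin d → ℂ)).ncard := (Set.ncard_coe_finset _).symm
      _ ≤ _ := Set.ncard_le_ncard hsub ((V d (2 * h)).finite_toSet.subset (fun q hq => hq.1))

theorem sum_sq (S : ℕ) : S ^ 3 ≤ 3 * ∑ s ∈ Icc 1 S, s ^ 2 := by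
  induction S with
  | zero => simp
  | succ n ih =>
    rw [sum_Icc_succ_top (by omega), mul_add]
    have h1 : (n + 1) ^ 3 + 3 * n + 2 = n ^ 3 + 3 * (n + 1) ^ 2 := by ring
    omega

theorem many_lines {d : ℕ} (hd : 4 ≤ d) {S r h : ℕ} (hr : 2 ≤ r) (hh : h = S ^ 2 * r) :
    S ^ 3 * h ^ 2 ≤ 3 * (richLines (V d (2 * h)) r).ncard := by
  classical
  set T : Finset (Σ _ : ℕ, ℕ × ℕ × ℕ) :=
    (Icc 1 S).sigma (fun s => Icc 1 (s ^ 2) ×ˢ Icc 1 h ×ˢ Icc 1 h) with hT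
  have hcard : T.card = (∑ s ∈ Icc 1 S, s ^ 2) * h ^ 2 := by
    rw [hT, card_sigma, sum_mul]
    refine sum_congr rfl fun s _ => ?_
    rw [card_product, card_product, Nat.card_Icc, Nat.card_Icc, Nat.add_sub_cancel,
      Nat.add_sub_cancel]
    ring
  have hinj : Set.InjOn (fun x : (Σ _ : ℕ, ℕ × ℕ × ℕ) => line d x.1 x.2) (T : Set _) := by
    rintro ⟨s, p⟩ hx ⟨s', p'⟩ hx' hxx
    rw [mem_coe, hT, mem_sigma, mem_product] at hx hx'
    obtain ⟨h1, h2⟩ := line_injective hd hx.2.1 hx'.2.1 hxx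
    simp only at h1 h2
    subst h1; subst h2
    rfl
  have hsub : ((T.image (fun x => line d x.1 x.2) : Finset _) : Set _) ⊆
      richLines (V d (2 * h)) r := by
    intro L hL
    obtain ⟨⟨s, p⟩, hx, rfl⟩ := mem_image.mp (mem_coe.mp hL)
    rw [hT, mem_sigma, mem_product, mem_product] at hx
    exact line_rich hd hh hx.1 hx.2.1 hx.2.2.1 hx.2.2.2
  have h1 := Set.ncard_le_ncard hsub (richLines_finite _ hr)
  rw [Set.ncard_coe_finset, card_image_of_injOn hinj, hcard] at h1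
  have h2 := sum_sq S
  nlinarith [Nat.zero_le (h ^ 2)]

/-! ### The result -/

/-- **Theorem.** For every `d ≥ 4` and every constant `C` there are a finite set `V` of points of
`ℂ ^ d`, with integer coordinates, and `r ≥ 2` such that more than
`C (n ^ 2 r ^ (-d - 1) + ∑_{l = 2}^{d - 1} n s_l r ^ (-l - 1) + n r ^ (-1))` lines contain at least
`r` points of `V`, where `n = |V|` and `s_l` is the largest number of points of `V` on an
`l`-flat. -/
theorem result : ∀ d : ℕ, 4 ≤ d → ∀ C : ℝ, ∃ (V : Finset (Fin d → ℂ)) (r : ℕ), 2 ≤ r ∧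
    (∀ p ∈ V, ∀ i, ∃ z : ℤ, p i = z) ∧
    C * ((V.card : ℝ) ^ 2 / (r : ℝ) ^ (d + 1) +
      ∑ l ∈ Icc 2 (d - 1), (V.card : ℝ) * (maxOnFlat V l : ℝ) / (r : ℝ) ^ (l + 1) +
      (V.card : ℝ) / r) < ((richLines V r).ncard : ℝ) := by
  intro d hd C
  obtain ⟨S, hS⟩ := exists_nat_gt (48 * |C|)
  have hS0 : 0 < (S : ℝ) := lt_of_le_of_lt (by positivity) hS
  have hS1 : (1 : ℝ) ≤ S := by
    have : 0 < S := by exact_mod_cast hS0
    exact_mod_cast this
  set r : ℕ := 8 * d * S ^ 6 + 2 with hrdef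
  have hr2 : 2 ≤ r := by omega
  have hr1 : (1 : ℝ) ≤ r := by exact_mod_cast (by omega : 1 ≤ r)
  have hr0 : (0 : ℝ) < r := by linarith
  obtain ⟨h, hh⟩ : ∃ h : ℕ, h = S ^ 2 * r := ⟨_, rfl⟩
  have hhR : (h : ℝ) = (S : ℝ) ^ 2 * r := by rw [hh]; push_cast; ring
  have hh0 : (0 : ℝ) < h := by rw [hhR]; positivity
  refine ⟨V d (2 * h), r, hr2, ?_, ?_⟩
  · intro p hp i
    classical
    obtain ⟨⟨x, y, z⟩, -, rfl⟩ := mem_image.mp hp
    obtain ⟨i, hi⟩ := i
    simp only [pt]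
    by_cases h4 : i < 4
    · simp only [h4, dif_pos]
      interval_cases i
      · exact ⟨x, by simp [P4]⟩
      · exact ⟨y, by simp [P4]⟩
      · exact ⟨z, by simp [P4]⟩
      · exact ⟨x * z - y ^ 2, by simp [P4]⟩
    · exact ⟨0, by simp [h4]⟩
  · have hcard : ((V d (2 * h)).card : ℝ) = 8 * (h : ℝ) ^ 3 := by
      rw [card_V hd]; push_cast; ring
    have m2 : (maxOnFlat (V d (2 * h)) 2 : ℝ) ≤ 4 * h := by
      have := maxOnFlat_two hd (2 * h)
      have h' : (maxOnFlat (V d (2 * h)) 2 : ℝ) ≤ ((2 * (2 * h) : ℕ) : ℝ) := by exact_mod_cast this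
      push_cast at h'
      linarith
    have m3 : (maxOnFlat (V d (2 * h)) 3 : ℝ) ≤ 8 * (h : ℝ) ^ 2 := by
      have := maxOnFlat_three hd (2 * h)
      have h' : (maxOnFlat (V d (2 * h)) 3 : ℝ) ≤ ((2 * (2 * h) ^ 2 : ℕ) : ℝ) := by
        exact_mod_cast this
      push_cast at h'
      linarith
    have ml : ∀ l, (maxOnFlat (V d (2 * h)) l : ℝ) ≤ 8 * (h : ℝ) ^ 3 := by
      intro l
      have := maxOnFlat_le hd (2 * h) l
      have h' : (maxOnFlat (V d (2 * h)) l : ℝ) ≤ (((2 * h) ^ 3 : ℕ) : ℝ) := by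
        exact_mod_cast this
      push_cast at h'
      linarith
    have hpow5 : (h : ℝ) ^ 5 / (r : ℝ) ^ 5 = (S : ℝ) ^ 10 := by
      rw [hhR, mul_pow]; field_simp
    have hbig : ∀ k, 5 ≤ k → 64 * (h : ℝ) ^ 6 / (r : ℝ) ^ k ≤ 64 * h * (S : ℝ) ^ 10 := by
      intro k hk
      calc 64 * (h : ℝ) ^ 6 / (r : ℝ) ^ k ≤ 64 * (h : ℝ) ^ 6 / (r : ℝ) ^ 5 :=
            div_le_div_of_nonneg_left (by positivity) (by positivity)
              (pow_le_pow_right₀ hr1 hk)
        _ = 64 * h * ((h : ℝ) ^ 5 / (r : ℝ) ^ 5) := by ring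
        _ = _ := by rw [hpow5]
    have hterm : ∀ l ∈ Icc 2 (d - 1),
        ((V d (2 * h)).card : ℝ) * (maxOnFlat (V d (2 * h)) l : ℝ) / (r : ℝ) ^ (l + 1) ≤
          64 * h * (S : ℝ) ^ 10 := by
      intro l hl
      rw [mem_Icc] at hl
      rw [hcard]
      rcases Nat.lt_or_ge l 4 with hl4 | hl4
      · obtain ⟨hl2, -⟩ := hl
        interval_cases l
        · calc 8 * (h : ℝ) ^ 3 * (maxOnFlat (V d (2 * h)) 2 : ℝ) / (r : ℝ) ^ (2 + 1)
              ≤ 8 * (h : ℝ) ^ 3 * (4 * h) / (r : ℝ) ^ 3 := by gcongr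
            _ = 32 * h * ((h : ℝ) ^ 3 / (r : ℝ) ^ 3) := by ring
            _ = 32 * h * (S : ℝ) ^ 6 := by rw [hhR, mul_pow]; field_simp
            _ ≤ 64 * h * (S : ℝ) ^ 10 := by
              have : (S : ℝ) ^ 6 ≤ (S : ℝ) ^ 10 := pow_le_pow_right₀ hS1 (by norm_num)
              have h6 : (0 : ℝ) ≤ (S : ℝ) ^ 6 := by positivity
              nlinarith
        · calc 8 * (h : ℝ) ^ 3 * (maxOnFlat (V d (2 * h)) 3 : ℝ) / (r : ℝ) ^ (3 + 1)
              ≤ 8 * (h : ℝ) ^ 3 * (8 * (h : ℝ) ^ 2) / (r : ℝ) ^ 4 := by gcongr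
            _ = 64 * h * ((h : ℝ) ^ 4 / (r : ℝ) ^ 4) := by ring
            _ = 64 * h * (S : ℝ) ^ 8 := by rw [hhR, mul_pow]; field_simp
            _ ≤ 64 * h * (S : ℝ) ^ 10 := by
              have : (S : ℝ) ^ 8 ≤ (S : ℝ) ^ 10 := pow_le_pow_right₀ hS1 (by norm_num)
              gcongr
      · calc 8 * (h : ℝ) ^ 3 * (maxOnFlat (V d (2 * h)) l : ℝ) / (r : ℝ) ^ (l + 1)
            ≤ 8 * (h : ℝ) ^ 3 * (8 * (h : ℝ) ^ 3) / (r : ℝ) ^ (l + 1) := by
              gcongr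
              exact ml l
          _ = 64 * (h : ℝ) ^ 6 / (r : ℝ) ^ (l + 1) := by ring
          _ ≤ _ := hbig (l + 1) (by omega)
    have hsum : ∑ l ∈ Icc 2 (d - 1),
        ((V d (2 * h)).card : ℝ) * (maxOnFlat (V d (2 * h)) l : ℝ) / (r : ℝ) ^ (l + 1) ≤
          ((d : ℝ) - 2) * (64 * h * (S : ℝ) ^ 10) := by
      refine (sum_le_sum hterm).trans ?_
      rw [sum_const, Nat.card_Icc, nsmul_eq_mul]
      have : ((d - 1 + 1 - 2 : ℕ) : ℝ) = (d : ℝ) - 2 := by
        rw [show d - 1 + 1 - 2 = d - 2 by omega, Nat.cast_sub (by omega)]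
        norm_num
      rw [this]
    have hfirst : ((V d (2 * h)).card : ℝ) ^ 2 / (r : ℝ) ^ (d + 1) ≤ 64 * h * (S : ℝ) ^ 10 := by
      rw [hcard]
      calc (8 * (h : ℝ) ^ 3) ^ 2 / (r : ℝ) ^ (d + 1) = 64 * (h : ℝ) ^ 6 / (r : ℝ) ^ (d + 1) := by
            ring
        _ ≤ _ := hbig (d + 1) (by omega)
    have hlast : ((V d (2 * h)).card : ℝ) / r = 8 * (h : ℝ) ^ 2 * (S : ℝ) ^ 2 := by
      rw [hcard, hhR]; field_simp
    have hrd : 8 * (d : ℝ) * (S : ℝ) ^ 6 ≤ r := by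
      rw [hrdef]; push_cast; linarith
    have hdR : (4 : ℝ) ≤ d := by exact_mod_cast hd
    have hB : ((V d (2 * h)).card : ℝ) ^ 2 / (r : ℝ) ^ (d + 1) +
        ∑ l ∈ Icc 2 (d - 1),
          ((V d (2 * h)).card : ℝ) * (maxOnFlat (V d (2 * h)) l : ℝ) / (r : ℝ) ^ (l + 1) +
        ((V d (2 * h)).card : ℝ) / r ≤ 16 * (h : ℝ) ^ 2 * (S : ℝ) ^ 2 := by
      have e1 : (d : ℝ) * (64 * h * (S : ℝ) ^ 10) ≤ 8 * (h : ℝ) ^ 2 * (S : ℝ) ^ 2 := by
        calc (d : ℝ) * (64 * h * (S : ℝ) ^ 10) = 8 * h * (S : ℝ) ^ 4 * (8 * d * (S : ℝ) ^ 6) := by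
              ring
          _ ≤ 8 * h * (S : ℝ) ^ 4 * r := by gcongr
          _ = 8 * (h : ℝ) * (S : ℝ) ^ 2 * ((S : ℝ) ^ 2 * r) := by ring
          _ = 8 * (h : ℝ) ^ 2 * (S : ℝ) ^ 2 := by rw [← hhR]; ring
      rw [hlast]
      have e2 : (0 : ℝ) ≤ 64 * h * (S : ℝ) ^ 10 := by positivity
      nlinarith
    have hB0 : 0 ≤ ((V d (2 * h)).card : ℝ) ^ 2 / (r : ℝ) ^ (d + 1) +
        ∑ l ∈ Icc 2 (d - 1),
          ((V d (2 * h)).card : ℝ) * (maxOnFlat (V d (2 * h)) l : ℝ) / (r : ℝ) ^ (l + 1) +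
        ((V d (2 * h)).card : ℝ) / r := by positivity
    have hmany : (S : ℝ) ^ 3 * (h : ℝ) ^ 2 ≤ 3 * ((richLines (V d (2 * h)) r).ncard : ℝ) := by
      exact_mod_cast many_lines hd hr2 hh
    have hfin : |C| * (16 * (h : ℝ) ^ 2 * (S : ℝ) ^ 2) < (S : ℝ) ^ 3 * (h : ℝ) ^ 2 / 3 := by
      have e3 : (0 : ℝ) < (h : ℝ) ^ 2 * (S : ℝ) ^ 2 := by positivity
      have e4 : |C| * (16 * (h : ℝ) ^ 2 * (S : ℝ) ^ 2) =
          (48 * |C|) * ((h : ℝ) ^ 2 * (S : ℝ) ^ 2) / 3 := by ring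
      have e5 : (S : ℝ) ^ 3 * (h : ℝ) ^ 2 / 3 = S * ((h : ℝ) ^ 2 * (S : ℝ) ^ 2) / 3 := by ring
      rw [e4, e5]
      have := mul_lt_mul_of_pos_right hS e3
      linarith
    calc C * _ ≤ |C| * _ := mul_le_mul_of_nonneg_right (le_abs_self C) hB0
      _ ≤ |C| * (16 * (h : ℝ) ^ 2 * (S : ℝ) ^ 2) := mul_le_mul_of_nonneg_left hB (abs_nonneg C)
      _ < (S : ℝ) ^ 3 * (h : ℝ) ^ 2 / 3 := hfin
      _ ≤ _ := by linarith

end Pool.Agent.Results.MP_0eaff0_co.QuadricPoints
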